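import Pool.Agent.Helper64.MC.Types
import Pool.Agent.Helper27.MC.Base2

/-!
MP_4042d8_co, rows F1 and F2.
-/

set_option autoImplicit false
set_option linter.unusedSectionVars false

namespace Pool.Agent.Helper72.MC

open Pool.Agent.Helper27.MC Pool.Agent.Helper51.MC Pool.Agent.Helper88.MC Pool.Agent.Helper64.MC

/-- F1: two `S`-neighbours of a `Q`-vertex are mates. -/
theorem st_F1 : Pool.Agent.Helper27.MC.ST_F1 := by
  intro V _ _ G _ hG c j hO hj q s s' hq h1 h2 hne hs hs'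
  exact (Pool.Agent.Helper64.MC.F1 hG hj hO hq hs hs' h1 h2 hne).1

/-- F2: for `2 ≤ j`, among three `S`-neighbours of an `A`-vertex there are mates. -/
theorem st_F2 : Pool.Agent.Helper27.MC.ST_F2 := by
  intro V _ _ G _ hG c j hO hj a s1 s2 s3 ha a1 a2 a3 n12 n13 n23 t1 t2 t3
  have hj1 : (2 : ℤ) ≤ (j : ℤ) := by exact_mod_cast hj
  by_contra hn
  rw [not_or, not_or] at hn
  obtain ⟨m12, m13, m23⟩ := hn
  have f12 : sf G c s1 s2 = 0 := sf_nadj m12
  have f13 : sf G c s1 s3 = 0 := sf_nadj m13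
  have f23 : sf G c s2 s3 = 0 := sf_nadj m23
  have ds : ∀ s, c s = false → a ≠ s := by
    rintro s hs rfl
    have := ha.1
    rw [hs] at this
    cases this
  have e4 := ds s1 t1.1
  have e5 := ds s2 t2.1
  have e6 := ds s3 t3.1
  have h3 := Ppos hG hO [a, s1, s2, s3] (by simp [n12, n13, n23, e4, e5, e6]) 2
    (by simp [dl_cons, dl_nil, ha.1, t1.1, t2.1, t3.1]) hj1
  simp only [cl_cons, cl_nil, List.map_cons, List.map_nil, List.sum_cons, List.sum_nil, ha.2,
    t1.2, t2.2, t3.2, f12, f13, f23] at h3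
  have g1 : sf G c a s1 = 1 := sf_adj a1 (by rw [ha.1, t1.1]; decide)
  have g2 : sf G c a s2 = 1 := sf_adj a2 (by rw [ha.1, t2.1]; decide)
  have g3 : sf G c a s3 = 1 := sf_adj a3 (by rw [ha.1, t3.1]; decide)
  rw [g1, g2, g3] at h3
  norm_num at h3

end Pool.Agent.Helper72.MC
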