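import Pool.Agent.Helper91.MC.K1

/-!
MP_4042d8_co, row K3: conflicts of the flips of one free vertex.
-/

namespace Pool.Agent.Helper72.MC

open Pool.Agent.Helper27.MC Pool.Agent.Helper91.MC

set_option autoImplicit false
set_option linter.unusedSectionVars false

section

variable {V : Type} [Fintype V] [DecidableEq V] {G : SimpleGraph V} [DecidableRel G.Adj]
  {c : V → Bool}

/-- the members of the territory of one vertex of type `S` -/
theorem mem_ter_S (hmu : ∀ v, mu G c v ≤ 1) {s y : V} (hs : tS G c s) (hy : y ∈ ter G c {s}) :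
    (tS G c y ∧ (y = s ∨ Mt G c y s)) ∨ (tA G c y ∧ G.Adj s y) ∨
      (tQ G c y ∧ ∃ q, tQ G c q ∧ G.Adj s q ∧ (y = q ∨ Mt G c y q)) := by
  have key : ∀ x, x ∈ cn G {s} →
      (tS G c x ∧ (x = s ∨ Mt G c x s)) ∨ (tA G c x ∧ G.Adj s x) ∨
        (tQ G c x ∧ G.Adj s x) := by
    intro x hx
    unfold cn at hx
    rw [Finset.mem_filter] at hx
    rcases hx.2 with hx | ⟨z, hz, hzx⟩
    · rw [Finset.mem_singleton] at hx
      subst hx
      exact Or.inl ⟨hs, Or.inl rfl⟩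
    · rw [Finset.mem_singleton] at hz
      subst hz
      cases hcx : c x
      · have hm : Mt G c x z := ⟨hzx, by rw [hcx, hs.1]⟩
        exact Or.inl ⟨tS_of_mt (hmu x) hcx hm, Or.inr hm⟩
      · have h1 := hmu x
        by_cases h0 : mu G c x = 0
        · exact Or.inr (Or.inl ⟨⟨hcx, h0⟩, hzx.symm⟩)
        · exact Or.inr (Or.inr ⟨⟨hcx, by omega⟩, hzx.symm⟩)
  unfold ter at hy
  rw [Finset.mem_filter] at hy
  rcases hy.2 with hy | ⟨x, hx, hxy, hc⟩
  · rcases key y hy with h | h | h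
    · exact Or.inl h
    · exact Or.inr (Or.inl h)
    · exact Or.inr (Or.inr ⟨h.1, y, h.1, h.2, Or.inl rfl⟩)
  · have hm : Mt G c x y := ⟨hxy, hc⟩
    rcases key x hx with ⟨h1, h2⟩ | h | ⟨h1, h2⟩
    · have hyS : tS G c y := tS_of_mt (hmu y) (by rw [← hc, h1.1]) (mt_symm hm)
      rcases h2 with h2 | h2
      · subst h2
        exact Or.inl ⟨hyS, Or.inr (mt_symm hm)⟩
      · exact Or.inl ⟨hyS, Or.inl (mt_uniq (hmu x) hm h2)⟩
    · exact (tA_not_mt h.1 hm).elim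
    · refine Or.inr (Or.inr ⟨⟨by rw [← hc, h1.1], le_antisymm (hmu y) (mt_mu (mt_symm hm))⟩,
        x, h1, h2, Or.inr (mt_symm hm)⟩)

/-- the members of the territory of a free vertex -/
theorem mem_ter_fr (hmu : ∀ v, mu G c v ≤ 1) {s y : V} (hs : Fr G c s) (hy : y ∈ ter G c {s}) :
    (tS G c y ∧ (y = s ∨ Mt G c y s)) ∨ (tA G c y ∧ G.Adj s y) := by
  rcases mem_ter_S hmu hs.1 hy with h | h | ⟨_, q, hq, hsq, _⟩
  · exact Or.inl h
  · exact Or.inr h
  · have e1 := (hs.2 q hsq hq.1).2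
    have e2 := hq.2
    omega

/-- the `T1`-vertex of an `M`-slot is unique -/
theorem msl_uniq {u a t t' : V} (h : Msl G c u a t) (h' : Msl G c u a t') : t' = t := by
  by_contra hne
  have h5 := h.2.2.2.2 t' h'.2.1 h'.2.2.1 hne
  have e1 := h5.2
  have e2 := h'.2.2.2.1.1.2
  omega

/-- the free vertices in conflict with a slot -/
theorem conf_slot_fr (hmu : ∀ v, mu G c v ≤ 1)
    (hcl : ∀ u a : V, IsSl G c u a → Nsl G c u a ∨ ∃ t, Msl G c u a t)
    (hcl2 : ∀ u u' a : V, IsSl G c u a → IsSl G c u' a → u = u')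
    {u a s : V} (hs : IsSl G c u a) (hf : Fr G c s)
    (h : ¬ Disjoint (ter G c {u, a}) (ter G c {s})) :
    (s = u ∨ Mt G c u s) ∨ ∃ t, Msl G c u a t ∧ Mt G c t s := by
  rw [Finset.not_disjoint_iff] at h
  obtain ⟨y, hy, hy'⟩ := h
  rcases mem_ter_fr hmu hf hy' with ⟨h1, h2⟩ | ⟨h1, h2⟩
  · rcases mem_ter_slot hmu hcl hs hy with ⟨_, h4 | ⟨t, ht, h4⟩⟩ | ⟨h3, _⟩ | ⟨h3, _⟩
    · exact Or.inl (mt_chain hmu h4 h2)
    · rcases mt_chain hmu h4 h2 with h5 | h5
      · exact (fr_not_t1 hf (h5 ▸ ht.2.2.2.1)).elim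
      · exact Or.inr ⟨t, ht, h5⟩
    · have e1 := h1.2
      have e2 := h3.2
      omega
    · have e1 := h1.2
      have e2 := h3.2
      omega
  · rcases mem_ter_slot hmu hcl hs hy with ⟨h3, _⟩ | ⟨_, h4⟩ | ⟨h3, _⟩
    · have e1 := h1.2
      have e2 := h3.2
      omega
    · exact Or.inl (Or.inl (hcl2 s u y ⟨hf, h1, h2⟩ ⟨hs.1, h1, h4⟩))
    · have e1 := h1.1
      have e2 := h3.1
      rw [e1] at e2
      simp at e2

end

/-- row K3 -/
theorem K3 (hC : ST_CLS) : ST_K3 := by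
  intro V _ _ G _ hG hT hQ c j hO hj
  obtain ⟨hcl, hcl2⟩ := hC V G hG hT hQ c j hO hj
  have hmu := hO.mu1
  refine ⟨?_, ?_, ?_, ?_⟩
  · intro u a hN
    obtain ⟨v, hv⟩ := mt_ex hN.1.1.1.2
    refine (Finset.card_le_card (t := {u, v}) ?_).trans Finset.card_le_two
    intro s hs
    rw [Finset.mem_filter] at hs
    rw [Finset.mem_insert, Finset.mem_singleton]
    rcases conf_slot_fr hmu hcl hcl2 hN.1 hs.2.1 hs.2.2 with (h | h) | ⟨t, ht, _⟩
    · exact Or.inl h
    · exact Or.inr (mt_uniq (hmu u) h hv)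
    · have e1 := (hN.2 t ht.2.1 ht.2.2.1).2
      have e2 := ht.2.2.2.1.1.2
      omega
  · intro u a t hM
    obtain ⟨v, hv⟩ := mt_ex hM.1.1.1.2
    obtain ⟨r, hr⟩ := mt_ex hM.2.2.2.1.1.2
    refine (Finset.card_le_card (t := {u, v, r}) ?_).trans Finset.card_le_three
    intro s hs
    rw [Finset.mem_filter] at hs
    rw [Finset.mem_insert, Finset.mem_insert, Finset.mem_singleton]
    rcases conf_slot_fr hmu hcl hcl2 hM.1 hs.2.1 hs.2.2 with (h | h) | ⟨t', ht', h⟩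
    · exact Or.inl h
    · exact Or.inr (Or.inl (mt_uniq (hmu u) h hv))
    · rw [msl_uniq hM ht'] at h
      exact Or.inr (Or.inr (mt_uniq (hmu t) h hr))
  · intro u a t hM
    obtain ⟨r, hr⟩ := mt_ex hM.2.2.2.1.1.2
    refine (Finset.card_le_card (t := {r, u}) ?_).trans Finset.card_le_two
    intro s hs
    rw [Finset.mem_filter, Finset.not_disjoint_iff] at hs
    rw [Finset.mem_insert, Finset.mem_singleton]
    obtain ⟨_, hf, y, hy, hy'⟩ := hs
    rcases mem_ter_fr hmu hf hy' with ⟨h1, h2⟩ | ⟨h1, h2⟩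
    · rcases mem_ter_S hmu hM.2.2.2.1.1 hy with ⟨_, h4⟩ | ⟨h3, _⟩ | ⟨h3, _⟩
      · rcases mt_chain hmu h4 h2 with h5 | h5
        · exact (fr_not_t1 hf (h5 ▸ hM.2.2.2.1)).elim
        · exact Or.inl (mt_uniq (hmu t) h5 hr)
      · have e1 := h1.2
        have e2 := h3.2
        omega
      · have e1 := h1.1
        have e2 := h3.1
        rw [e1] at e2
        simp at e2
    · rcases mem_ter_S hmu hM.2.2.2.1.1 hy with ⟨h3, _⟩ | ⟨_, h4⟩ | ⟨h3, _⟩
      · have e1 := h1.2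
        have e2 := h3.2
        omega
      · have e : y = a := t1_uniq hG hM.2.2.2.1 h1 hM.1.2.1 h4 hM.2.1.symm
        subst e
        exact Or.inr (hcl2 s u y ⟨hf, h1, h2⟩ hM.1)
      · have e1 := h1.2
        have e2 := h3.2
        omega
  · intro s' hs'
    obtain ⟨v, hv⟩ := mt_ex hs'.1.2
    refine (Finset.card_le_card (t := {s', v}) ?_).trans Finset.card_le_two
    intro s hs
    rw [Finset.mem_filter, Finset.not_disjoint_iff] at hs
    rw [Finset.mem_insert, Finset.mem_singleton]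
    obtain ⟨_, hf, y, hy, hy'⟩ := hs
    rcases mem_ter_fr hmu hf hy' with ⟨h1, h2⟩ | ⟨h1, h2⟩
    · rcases mem_ter_fr hmu hs' hy with ⟨_, h4⟩ | ⟨h3, _⟩
      · rcases mt_chain hmu h4 h2 with h5 | h5
        · exact Or.inl h5
        · exact Or.inr (mt_uniq (hmu s') h5 hv)
      · have e1 := h1.2
        have e2 := h3.2
        omega
    · rcases mem_ter_fr hmu hs' hy with ⟨h3, _⟩ | ⟨_, h4⟩
      · have e1 := h1.2
        have e2 := h3.2
        omega
      · exact Or.inl (hcl2 s s' y ⟨hf, h1, h2⟩ ⟨hs', h1, h4⟩)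

end Pool.Agent.Helper72.MC
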